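import Pool.Agent.H442R3.MPar.Pot

/-!
# Characteristic-free versions of the facts on alternating maps used for matroid parity
-/

namespace Pool.Agent.H139P

open Module Pool.Agent.H442R3.MPar

section odd

theorem radical_aux {F : Type*} [Field F] : ∀ (n : ℕ) (X : Type*) [AddCommGroup X] [Module F X]
    [FiniteDimensional F X], finrank F X = n → Odd n →
    ∀ (B : X →ₗ[F] X →ₗ[F] F), (∀ x, B x x = 0) → ∃ r, r ≠ 0 ∧ ∀ y, B r y = 0 := by
  intro n
  induction n using Nat.strong_induction_on with
  | _ n ih =>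
  intro X _ _ _ hn hodd B hB
  have hskew : ∀ x y, B x y = - B y x := by
    intro x y
    have h := hB (x + y)
    simp only [LinearMap.add_apply, map_add] at h
    rw [hB x, hB y] at h
    linear_combination h
  have hpos : 0 < finrank F X := by rw [hn]; exact hodd.pos
  by_cases h0 : ∀ x y, B x y = 0
  · have : Nontrivial X := finrank_pos_iff.1 hpos
    obtain ⟨r, hr⟩ := exists_ne (0 : X)
    exact ⟨r, hr, h0 r⟩
  push Not at h0
  obtain ⟨x, y, hxy⟩ := h0
  let f : X →ₗ[F] (F × F) := LinearMap.prod (B x) (B y)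
  have hf : ∀ z, f z = (B x z, B y z) := fun z => rfl
  have hsurj : LinearMap.range f = ⊤ := by
    rw [eq_top_iff]
    rintro ⟨s, t⟩ _
    refine ⟨(s / B x y) • y + (t / B y x) • x, ?_⟩
    have hyx : B y x ≠ 0 := by rw [hskew]; exact neg_ne_zero.2 hxy
    rw [hf]
    simp only [map_add, map_smul, hB, smul_eq_mul, mul_zero, add_zero, zero_add]
    rw [div_mul_cancel₀ _ hxy, div_mul_cancel₀ _ hyx]
  have hk : finrank F (LinearMap.ker f) + 2 = n := by
    have h1 := LinearMap.finrank_range_add_finrank_ker f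
    rw [hsurj, finrank_top, Module.finrank_prod, Module.finrank_self, hn] at h1
    omega
  let X' := LinearMap.ker f
  let B' : X' →ₗ[F] X' →ₗ[F] F := (LinearMap.lcomp F F X'.subtype).comp (B.comp X'.subtype)
  have hB' : ∀ u v : X', B' u v = B u v := fun u v => rfl
  obtain ⟨r, hr0, hr⟩ := ih (finrank F (LinearMap.ker f)) (by omega) X' rfl (by
    obtain ⟨k, hk'⟩ := hodd
    exact ⟨k - 1, by omega⟩) B' (fun z => hB z)
  refine ⟨r, fun h => hr0 (Subtype.ext h), fun z => ?_⟩
  have hrx : B x r = 0 ∧ B y r = 0 := by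
    have := LinearMap.mem_ker.1 r.2
    rw [hf, Prod.mk_eq_zero] at this
    exact this
  have hyx : B y x ≠ 0 := by rw [hskew]; exact neg_ne_zero.2 hxy
  have hz : z - ((B x z / B x y) • y + (B y z / B y x) • x) ∈ X' := by
    rw [LinearMap.mem_ker, hf, Prod.mk_eq_zero]
    simp only [map_sub, map_add, map_smul, hB, smul_eq_mul, mul_zero, add_zero, zero_add]
    rw [div_mul_cancel₀ _ hxy, div_mul_cancel₀ _ hyx]
    exact ⟨sub_self _, sub_self _⟩
  have h1 := hr ⟨_, hz⟩
  rw [hB'] at h1
  simp only [map_sub, map_add, map_smul, smul_eq_mul] at h1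
  have h2 : B r y = 0 := by rw [hskew, hrx.2, neg_zero]
  have h3 : B r x = 0 := by rw [hskew, hrx.1, neg_zero]
  rw [h2, h3, mul_zero, mul_zero, add_zero, sub_zero] at h1
  exact h1

/-- an alternating form on an odd-dimensional space is degenerate (any characteristic) -/
theorem exists_radical' {F : Type*} [Field F] {X : Type*} [AddCommGroup X] [Module F X]
    [FiniteDimensional F X] (B : X →ₗ[F] X →ₗ[F] F) (hB : ∀ x, B x x = 0)
    (hodd : Odd (finrank F X)) : ∃ r, r ≠ 0 ∧ ∀ y, B r y = 0 :=
  radical_aux _ X rfl hodd B hB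

/-- for an alternating form and a nonzero functional there is a nonzero vector orthogonal to the
kernel of the functional -/
theorem exists_orth_ker {F : Type*} [Field F] {X : Type*} [AddCommGroup X] [Module F X]
    [FiniteDimensional F X] (B : X →ₗ[F] X →ₗ[F] F) (hB : ∀ x, B x x = 0)
    (f : X →ₗ[F] F) (hf : f ≠ 0) : ∃ r, r ≠ 0 ∧ ∀ y, f y = 0 → B r y = 0 := by
  rcases Nat.even_or_odd (finrank F X) with he | ho
  · have h1 := Module.Dual.finrank_ker_add_one_of_ne_zero (f := f) hf
    have hodd : Odd (finrank F (LinearMap.ker f)) := by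
      obtain ⟨k, hk⟩ := he
      exact ⟨k - 1, by omega⟩
    let X' := LinearMap.ker f
    let B' : X' →ₗ[F] X' →ₗ[F] F := (LinearMap.lcomp F F X'.subtype).comp (B.comp X'.subtype)
    obtain ⟨r, hr0, hr⟩ := exists_radical' B' (fun z => hB z) hodd
    exact ⟨r, fun h => hr0 (Subtype.ext h), fun y hy => hr ⟨y, LinearMap.mem_ker.2 hy⟩⟩
  · obtain ⟨r, hr0, hr⟩ := exists_radical' B hB ho
    exact ⟨r, hr0, fun y _ => hr y⟩

end odd

section parity

variable {F : Type*} [Field F] {V : Type*} [AddCommGroup V] [Module F V] [FiniteDimensional F V]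

/-- the rank of an alternating map is even -/
theorem even_rank' {A : Dual F V →ₗ[F] V} (hA : Alt A) :
    Even (finrank F (LinearMap.range A)) := by
  by_contra hno
  rw [Nat.not_even_iff_odd] at hno
  obtain ⟨D, hD⟩ := (LinearMap.ker A).exists_isCompl
  have hdim : finrank F D = finrank F (LinearMap.range A) := by
    have h1 := LinearMap.finrank_range_add_finrank_ker A
    have h2 := Submodule.finrank_add_eq_of_isCompl hD
    omega
  let B : D →ₗ[F] D →ₗ[F] F :=
    { toFun := fun φ => (φ : Dual F V).comp (A.comp D.subtype)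
      map_add' := fun φ ψ => by
        ext x
        simp
      map_smul' := fun c φ => by
        ext x
        simp }
  have hBa : ∀ (φ ψ : D), B φ ψ = (φ : Dual F V) (A (ψ : Dual F V)) := fun φ ψ => rfl
  have hBx : ∀ x : D, B x x = 0 := fun x => hA _
  have hodd : Odd (finrank F D) := by rwa [hdim]
  obtain ⟨r, hr0, hr⟩ := exists_radical' (X := D) B hBx hodd
  apply hr0
  have h3 : ∀ ψ : Dual F V, (r : Dual F V) (A ψ) = 0 := by
    intro ψ
    have : ψ ∈ LinearMap.ker A ⊔ D := by rw [hD.sup_eq_top]; trivial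
    obtain ⟨k, hk, d, hd, rfl⟩ := Submodule.mem_sup.1 this
    rw [map_add, map_add, LinearMap.mem_ker.1 hk, map_zero, zero_add]
    exact hr ⟨d, hd⟩
  have h4 : A (r : Dual F V) = 0 := by
    rw [← Module.forall_dual_apply_eq_zero_iff F]
    intro ψ
    rw [hA.skew, h3, neg_zero]
  have h5 : (r : Dual F V) ∈ LinearMap.ker A ⊓ D := ⟨h4, r.2⟩
  rw [hD.inf_eq_bot] at h5
  exact Subtype.ext ((Submodule.mem_bot F).1 h5)

end parity

end Pool.Agent.H139P
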