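import Pool.Agent.H139P.Stuck2

/-!
# Row-sum-zero diagonals and matroid parity over an infinite field
-/

namespace Pool.Agent.H139P

open Module Pool.Agent.H442R3.MPar

variable {F : Type*} [Field F] [Infinite F] {V : Type*} [AddCommGroup V] [Module F V]
  [FiniteDimensional F V]
variable {ι : Type*} [Fintype ι] [DecidableEq ι]

theorem core (e a : ι → V) (h2 : ∀ i, finrank F (ln F (e i) (a i)) = 2) :
    ∃ M : Finset ι, IndepSet F e a M ∧ (∀ M', IndepSet F e a M' → M'.card ≤ M.card) ∧
      ((∀ φ' : Dual F V, (∀ i, φ' (e i) = 1) →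
        finrank F (Submodule.span F (Set.range fun i => a i - φ' (a i) • e i)) ≤ 2 * M.card) ∨
      ∃ r : V, r ≠ 0 ∧ ∀ M', IndepSet F e a M' → M'.card = M.card →
        ∃ v, r = comb F e a M' v) := by
  classical
  obtain ⟨x, hS⟩ := exists_stuck (F := F) e a
  set A := AL e a x with hAdef
  have hA : Alt A := alt_AL e a x
  have : Finite (LG e a A hA).ConnectedComponent := Quot.finite _
  have := Fintype.ofFinite (LG e a A hA).ConnectedComponent
  let C := (LG e a A hA).ConnectedComponent
  let cl : ι → C := lcl e a A hA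
  let W : C → Submodule F V := WC e a A hA
  have hle : ∀ i, ln F (e i) (a i) ≤ W (cl i) := fun i =>
    le_iSup (fun j : {j // lcl e a A hA j = lcl e a A hA i} => ln F (e j) (a j)) ⟨i, rfl⟩
  have hW : ∀ i, e i ∈ W (cl i) ∧ a i ∈ W (cl i) := fun i =>
    ⟨hle i (Submodule.subset_span (by simp)), hle i (Submodule.subset_span (by simp))⟩
  have hC : ∀ c η, A η = 0 → (∃ p ∈ W c, η p ≠ 0) → ∀ p ∈ W c, η p = 0 →
      p ∈ LinearMap.range A := fun c η hη h0 p hp h3 =>
    class_codim hA hS.toS1 h2 c η hη h0 p hp h3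
  have hO : ∀ c c', c ≠ c' → ∀ φ, A φ ∈ W c → ∀ p ∈ W c', p ∈ LinearMap.range A → φ p = 0 :=
    fun c c' hcc φ hφ p hp hpr => class_orth hA hS h2 c c' hcc φ hφ p hp hpr
  have hub := fun M hM => upper' hA cl W hW hC hO M hM
  obtain ⟨r, hr⟩ := even_rank' hA
  obtain ⟨M, _, hMc, hM⟩ := exists_matching' r V e a Finset.univ x (by
    rw [hAdef, AL] at hr
    omega)
  have hM2 : 2 * M.card = finrank F (LinearMap.range A) := by rw [hMc]; omega
  refine ⟨M, hM, fun M' hM' => by have := (hub M' hM').1; omega, ?_⟩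
  by_cases hB : ∃ r : V, r ≠ 0 ∧ ∀ M', IndepSet F e a M' → M'.card = M.card →
        ∃ v, r = comb F e a M' v
  · exact Or.inr hB
  left
  intro φ' hφ'
  let w : ι → V := fun i => a i - φ' (a i) • e i
  have hwW : ∀ i, w i ∈ W (cl i) := fun i =>
    Submodule.sub_mem _ (hW i).2 (Submodule.smul_mem _ _ (hW i).1)
  have hφw : ∀ i, φ' (w i) = 0 := by
    intro i
    simp only [w, map_sub, map_smul, hφ', smul_eq_mul, mul_one, sub_self]
  let O : Finset C := Finset.univ.filter (fun c => ∃ i, cl i = c ∧ w i ∉ LinearMap.range A)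
  have hO1 : ∀ c : O, ∃ i, cl i = c ∧ w i ∉ LinearMap.range A := fun c =>
    (Finset.mem_filter.1 c.2).2
  choose ic hic hicR using hO1
  have hO2 : ∀ c : O, ∃ η : Dual F V, A η = 0 ∧ η (w (ic c)) ≠ 0 := by
    intro c
    have h := hicR c
    rw [hA.mem_range_iff] at h
    push Not at h
    exact h
  choose η hη hηne using hO2
  -- reduction of a vector of the class to the range
  have hred : ∀ (c : O) (p : V), p ∈ W c →
      p - (η c p / η c (w (ic c))) • w (ic c) ∈ LinearMap.range A := by
    intro c p hp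
    have hwc : w (ic c) ∈ W c := by
      have := hwW (ic c)
      rwa [hic] at this
    refine hC c (η c) (hη c) ⟨_, hwc, hηne c⟩ _
      (Submodule.sub_mem _ hp (Submodule.smul_mem _ _ hwc)) ?_
    rw [map_sub, map_smul, smul_eq_mul, div_mul_cancel₀ _ (hηne c), sub_self]
  obtain ⟨s, hs⟩ := A.rangeRestrict.exists_rightInverse_of_surjective
    (LinearMap.range_rangeRestrict A)
  have hs' : ∀ p : LinearMap.range A, A (s p) = p := by
    intro p
    have := congrArg Subtype.val (LinearMap.congr_fun hs p)
    simpa using this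
  have hO3 : ∀ c : O, ∃ φ : Dual F V, A φ ∈ W c ∧ A φ ≠ 0 ∧
      ∀ p ∈ W c, p ∈ LinearMap.range A → φ' p = 0 → φ p = 0 := by
    intro c
    let X : Submodule F V := W c ⊓ LinearMap.range A
    let g : X →ₗ[F] LinearMap.range A := LinearMap.codRestrict (LinearMap.range A)
      X.subtype (fun v => v.2.2)
    let B : X →ₗ[F] X →ₗ[F] F := (LinearMap.lcomp F F X.subtype).comp (s.comp g)
    have hBv : ∀ v u : X, B v u = s (g v) (u : V) := fun v u => rfl
    have hg : ∀ v : X, ((g v : LinearMap.range A) : V) = v := fun v => rfl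
    have hBa : ∀ v : X, B v v = 0 := by
      intro v
      rw [hBv, ← hg, ← hs' (g v)]
      exact hA _
    let f : X →ₗ[F] F := φ'.comp X.subtype
    have hf : f ≠ 0 := by
      intro h0
      have hwc : w (ic c) ∈ W c := by
        have := hwW (ic c)
        rwa [hic] at this
      have hec : e (ic c) ∈ W c := by
        have := (hW (ic c)).1
        rwa [hic] at this
      have hmem : e (ic c) - (η c (e (ic c)) / η c (w (ic c))) • w (ic c) ∈ X :=
        ⟨Submodule.sub_mem _ hec (Submodule.smul_mem _ _ hwc), hred c _ hec⟩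
      have h1 : f ⟨_, hmem⟩ = 0 := by rw [h0]; rfl
      have h3 : φ' (e (ic c) - (η c (e (ic c)) / η c (w (ic c))) • w (ic c)) = 0 := h1
      rw [map_sub, map_smul, hφw, smul_zero, sub_zero, hφ'] at h3
      exact one_ne_zero h3
    obtain ⟨r, hr0, hr⟩ := exists_orth_ker B hBa f hf
    refine ⟨s (g r), ?_, ?_, ?_⟩
    · rw [hs', hg]
      exact r.2.1
    · rw [hs', hg]
      intro h
      exact hr0 (Subtype.ext h)
    · intro p hp hpr hφp
      exact hr ⟨p, hp, hpr⟩ hφp
  choose φ hφW hφ0 hφk using hO3
  -- independence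
  have hind : ∀ t : O → F, ∑ c, t c • A (φ c) = 0 → t = 0 := by
    intro t h1
    funext c0
    by_contra hne
    simp only [Pi.zero_apply] at hne
    apply hB
    refine ⟨A (φ c0), hφ0 c0, fun M' hM' hc' => ?_⟩
    refine (hub M' hM').2 (by rw [hc', hM2]) (φ c0) ?_
    intro c p hp hpr
    by_cases hcc : (c0 : C) = c
    · subst hcc
      have h3 : A (∑ c, t c • φ c) = 0 := by
        rw [map_sum, ← h1]
        exact Finset.sum_congr rfl fun c _ => map_smul _ _ _
      have h4 := hA.ker_kills h3 hpr
      rw [LinearMap.sum_apply, Finset.sum_eq_single c0] at h4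
      · rw [LinearMap.smul_apply, smul_eq_mul] at h4
        exact (mul_eq_zero.1 h4).resolve_left hne
      · intro c' _ hc'
        rw [LinearMap.smul_apply, hO c' c0 (fun h => hc' (Subtype.ext h)) (φ c') (hφW c') p hp hpr,
          smul_zero]
      · intro h; exact absurd (Finset.mem_univ _) h
    · exact hO c0 c hcc (φ c0) (hφW c0) p hp hpr
  have hlin : LinearIndependent F φ := by
    rw [Fintype.linearIndependent_iff]
    intro t h0 c
    have h1 := congrArg A h0
    rw [map_sum, map_zero] at h1
    simp only [map_smul] at h1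
    rw [hind t h1]
    rfl
  let S : Submodule F (Dual F V) := Submodule.span F (Set.range φ)
  have hSf : finrank F S = O.card := by
    rw [finrank_span_eq_card hlin, Fintype.card_coe]
  have hdis : LinearMap.ker A ⊓ S = ⊥ := by
    rw [Submodule.eq_bot_iff]
    rintro x ⟨hx1, hx2⟩
    obtain ⟨t, rfl⟩ := (Submodule.mem_span_range_iff_exists_fun F).1 hx2
    have h1 : A (∑ c, t c • φ c) = 0 := hx1
    rw [map_sum] at h1
    simp only [map_smul] at h1
    rw [hind t h1]
    simp
  let K : Submodule F (Dual F V) := LinearMap.ker A ⊔ S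
  -- the reduced vectors
  let y : ι → V := fun i => if h : cl i ∈ O then
    w i - (η ⟨cl i, h⟩ (w i) / η ⟨cl i, h⟩ (w (ic ⟨cl i, h⟩))) • w (ic ⟨cl i, h⟩) else w i
  have hyR : ∀ i, y i ∈ LinearMap.range A := by
    intro i
    by_cases h : cl i ∈ O
    · simp only [y, h, dif_pos]
      exact hred ⟨cl i, h⟩ _ (hwW i)
    · simp only [y, h, dif_neg, not_false_eq_true]
      by_contra hno
      exact h (Finset.mem_filter.2 ⟨Finset.mem_univ _, i, rfl, hno⟩)
  have hyW : ∀ i, y i ∈ W (cl i) := by
    intro i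
    by_cases h : cl i ∈ O
    · simp only [y, h, dif_pos]
      refine Submodule.sub_mem _ (hwW i) (Submodule.smul_mem _ _ ?_)
      have := hwW (ic ⟨cl i, h⟩)
      rwa [hic] at this
    · simp only [y, h, dif_neg, not_false_eq_true]
      exact hwW i
  have hyφ : ∀ i, φ' (y i) = 0 := by
    intro i
    by_cases h : cl i ∈ O
    · simp only [y, h, dif_pos, map_sub, map_smul, hφw, smul_zero, sub_zero]
    · simp only [y, h, dif_neg, not_false_eq_true, hφw]
  have hyK : Submodule.span F (Set.range y) ≤ K.dualCoannihilator := by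
    rw [Submodule.span_le]
    rintro _ ⟨i, rfl⟩
    rw [SetLike.mem_coe, Submodule.mem_dualCoannihilator]
    intro x hx
    obtain ⟨η', hη', z, hz, rfl⟩ := Submodule.mem_sup.1 hx
    obtain ⟨t, rfl⟩ := (Submodule.mem_span_range_iff_exists_fun F).1 hz
    rw [LinearMap.add_apply, LinearMap.sum_apply, hA.ker_kills (LinearMap.mem_ker.1 hη') (hyR i),
      zero_add]
    apply Finset.sum_eq_zero
    intro c _
    rw [LinearMap.smul_apply]
    by_cases hcc : (c : C) = cl i
    · rw [hφk c (y i) (by rw [hcc]; exact hyW i) (hyR i) (hyφ i), smul_zero]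
    · rw [hO c (cl i) hcc (φ c) (hφW c) (y i) (hyW i) (hyR i), smul_zero]
  have hspan : Submodule.span F (Set.range w) ≤
      Submodule.span F (Set.range y) ⊔ Submodule.span F (Set.range fun c : O => w (ic c)) := by
    rw [Submodule.span_le]
    rintro _ ⟨i, rfl⟩
    by_cases h : cl i ∈ O
    · have e1 : w i = y i + (η ⟨cl i, h⟩ (w i) / η ⟨cl i, h⟩ (w (ic ⟨cl i, h⟩))) •
          w (ic ⟨cl i, h⟩) := by
        simp only [y, h, dif_pos, sub_add_cancel]
      rw [SetLike.mem_coe, e1]
      exact Submodule.add_mem_sup (Submodule.subset_span ⟨i, rfl⟩)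
        (Submodule.smul_mem _ _ (Submodule.subset_span ⟨⟨cl i, h⟩, rfl⟩))
    · have e1 : w i = y i := by simp only [y, h, dif_neg, not_false_eq_true]
      rw [SetLike.mem_coe, e1]
      exact Submodule.mem_sup_left (Submodule.subset_span ⟨i, rfl⟩)
  have d1 := Submodule.finrank_mono hspan
  have d2 := Submodule.finrank_sup_add_finrank_inf_eq (Submodule.span F (Set.range y))
    (Submodule.span F (Set.range fun c : O => w (ic c)))
  have d3 : finrank F (Submodule.span F (Set.range fun c : O => w (ic c))) ≤ O.card := by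
    have := finrank_range_le_card (R := F) (fun c : O => w (ic c))
    rwa [Fintype.card_coe] at this
  have d4 := Submodule.finrank_mono hyK
  have d5 := Subspace.finrank_add_finrank_dualCoannihilator_eq K
  have d6 : finrank F K = finrank F (LinearMap.ker A) + O.card := by
    have e1 := Submodule.finrank_sup_add_finrank_inf_eq (LinearMap.ker A) S
    rw [hdis, finrank_bot, hSf] at e1
    exact e1
  have d7 := LinearMap.finrank_range_add_finrank_ker A
  have d8 : finrank F (Dual F V) = finrank F V := Subspace.dual_finrank_eq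
  rw [hM2]
  change finrank F (Submodule.span F (Set.range w)) ≤ _
  omega

end Pool.Agent.H139P
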