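import Pool.Agent.H139P.Core

/-!
# Descent to an arbitrary field
-/

namespace Pool.Agent.H139P

open Module Pool.Agent.H442R3.MPar

variable {F : Type*} [Field F] {U : Type*} [AddCommGroup U] [Module F U] [FiniteDimensional F U]
variable {ι : Type*} [Fintype ι] [DecidableEq ι]

theorem core_field (e a : ι → U) (h2 : ∀ i, finrank F (ln F (e i) (a i)) = 2)
    (φ' : Dual F U) (hφ' : ∀ i, φ' (e i) = 1) :
    ∃ M : Finset ι, IndepSet F e a M ∧ (∀ M', IndepSet F e a M' → M'.card ≤ M.card) ∧
      (finrank F (Submodule.span F (Set.range fun i => a i - φ' (a i) • e i)) ≤ 2 * M.card ∨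
      ∃ t : U, t ≠ 0 ∧ ∀ M', IndepSet F e a M' → M'.card = M.card →
        ∃ v, t = comb F e a M' v) := by
  classical
  let L := AlgebraicClosure F
  let b := finBasis F U
  let n := finrank F U
  let J : U → (Fin n → L) := fun u j => algebraMap F L (b.repr u j)
  have hJadd : ∀ u v, J (u + v) = J u + J v := by
    intro u v; funext j; simp [J]
  have hJsmul : ∀ (c : F) u, J (c • u) = (algebraMap F L c) • J u := by
    intro c u; funext j; simp [J]
  have hJ0 : J 0 = 0 := by funext j; simp [J]
  have hJsum : ∀ (s : Finset ι) (f : ι → U), J (∑ i ∈ s, f i) = ∑ i ∈ s, J (f i) := by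
    intro s f
    induction s using Finset.induction_on with
    | empty => simp [hJ0]
    | insert i s hi ih => rw [Finset.sum_insert hi, Finset.sum_insert hi, hJadd, ih]
  let T : (L →ₗ[F] F) → (Fin n → L) → U := fun ξ y => ∑ j, ξ (y j) • b j
  have hTadd : ∀ ξ y z, T ξ (y + z) = T ξ y + T ξ z := by
    intro ξ y z
    simp only [T, Pi.add_apply, map_add, add_smul, Finset.sum_add_distrib]
  have hT0 : ∀ ξ, T ξ 0 = 0 := by intro ξ; simp [T]
  have hTJ : ∀ ξ (l : L) u, T ξ (l • J u) = ξ l • u := by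
    intro ξ l u
    have e1 : ∀ j, ξ ((l • J u) j) = ξ l * b.repr u j := by
      intro j
      have : (l • J u) j = (b.repr u j) • l := by
        simp only [J, Pi.smul_apply, smul_eq_mul, Algebra.smul_def, mul_comm]
      rw [this, map_smul, smul_eq_mul, mul_comm]
    simp only [T, e1, mul_smul]
    rw [← Finset.smul_sum, b.sum_repr]
  have hTsum : ∀ {κ : Type _} (s : Finset κ) (f : κ → (Fin n → L)) ξ,
      T ξ (∑ i ∈ s, f i) = ∑ i ∈ s, T ξ (f i) := by
    intro κ s f ξ
    induction s using Finset.induction_on with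
    | empty => simp [hT0]
    | insert i s hi ih => rw [Finset.sum_insert hi, Finset.sum_insert hi, hTadd, ih]
  have hzero : ∀ l : L, (∀ ξ : L →ₗ[F] F, ξ l = 0) → l = 0 := fun l h =>
    (Module.forall_dual_apply_eq_zero_iff F l).1 h
  have hI1 : ∀ M : Finset ι, IndepSet F e a M →
      IndepSet L (fun i => J (e i)) (fun i => J (a i)) M := by
    intro M hM α β h0 i hi
    have h1 : ∀ ξ : L →ₗ[F] F, ξ (α i) = 0 ∧ ξ (β i) = 0 := by
      intro ξ
      refine hM (fun i => ξ (α i)) (fun i => ξ (β i)) ?_ i hi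
      have := congrArg (T ξ) h0
      rw [hTsum, hT0] at this
      rw [← this]
      exact Finset.sum_congr rfl fun i _ => by rw [hTadd, hTJ, hTJ]
    exact ⟨hzero _ fun ξ => (h1 ξ).1, hzero _ fun ξ => (h1 ξ).2⟩
  have hI2 : ∀ M : Finset ι, IndepSet L (fun i => J (e i)) (fun i => J (a i)) M →
      IndepSet F e a M := by
    intro M hM α β h0 i hi
    have h1 := hM (fun i => algebraMap F L (α i)) (fun i => algebraMap F L (β i)) (by
      have := congrArg J h0
      rw [hJsum, hJ0] at this
      rw [← this]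
      exact Finset.sum_congr rfl fun i _ => by rw [hJadd, hJsmul, hJsmul]) i hi
    exact ⟨(map_eq_zero _).1 h1.1, (map_eq_zero _).1 h1.2⟩
  have h2L : ∀ i, finrank L (ln L (J (e i)) (J (a i))) = 2 := by
    intro i
    apply finrank_of_pair
    intro α β h0
    have h1 : ∀ ξ : L →ₗ[F] F, ξ α = 0 ∧ ξ β = 0 := by
      intro ξ
      refine pair_of_finrank (h2 i) _ _ ?_
      have := congrArg (T ξ) h0
      rwa [hTadd, hTJ, hTJ, hT0] at this
    exact ⟨hzero _ fun ξ => (h1 ξ).1, hzero _ fun ξ => (h1 ξ).2⟩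
  let ψ : Dual L (Fin n → L) := ∑ j, algebraMap F L (φ' (b j)) • LinearMap.proj j
  have hψ : ∀ u, ψ (J u) = algebraMap F L (φ' u) := by
    intro u
    have e1 : φ' u = ∑ j, φ' (b j) * b.repr u j := by
      conv_lhs => rw [← b.sum_repr u]
      rw [map_sum]
      exact Finset.sum_congr rfl fun j _ => by rw [map_smul, smul_eq_mul, mul_comm]
    rw [e1, map_sum]
    simp only [ψ, LinearMap.sum_apply, LinearMap.smul_apply, LinearMap.proj_apply, smul_eq_mul,
      map_mul, J]
  obtain ⟨M, hM, hmax, hor⟩ := core (F := L) (fun i => J (e i)) (fun i => J (a i)) h2L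
  refine ⟨M, hI2 M hM, fun M' hM' => hmax M' (hI1 M' hM'), ?_⟩
  rcases hor with hA | hB
  · left
    have h1 : finrank L (Submodule.span L (Set.range fun i =>
        J (a i) - ψ (J (a i)) • J (e i))) ≤ 2 * M.card :=
      hA ψ (fun i => by rw [hψ, hφ', map_one])
    have hw : ∀ i, J (a i) - ψ (J (a i)) • J (e i) = J (a i - φ' (a i) • e i) := by
      intro i
      rw [sub_eq_add_neg (a i), ← neg_smul, hJadd, hJsmul, hψ, map_neg, neg_smul, sub_eq_add_neg]
    rw [show (fun i => J (a i) - ψ (J (a i)) • J (e i)) =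
      fun i => J (a i - φ' (a i) • e i) from funext hw] at h1
    refine le_trans ?_ h1
    obtain ⟨f, hf1, hf2, hf3⟩ := Submodule.exists_fun_fin_finrank_span_eq F
      (Set.range fun i => a i - φ' (a i) • e i)
    have hJf : LinearIndependent L (fun k => J (f k)) := by
      rw [Fintype.linearIndependent_iff]
      intro g h0 k
      apply hzero
      intro ξ
      rw [Fintype.linearIndependent_iff] at hf3
      refine hf3 (fun k => ξ (g k)) ?_ k
      have h4 := congrArg (T ξ) h0
      have h5 := map_sum (AddMonoidHom.mk' (T ξ) (hTadd ξ)) (fun k => g k • J (f k)) Finset.univ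
      simp only [AddMonoidHom.mk'_apply] at h5
      rw [h5, hT0] at h4
      rw [← h4]
      exact Finset.sum_congr rfl fun k _ => by rw [hTJ]
    have h3 := finrank_span_eq_card hJf
    rw [Fintype.card_fin] at h3
    rw [← h3]
    apply Submodule.finrank_mono
    apply Submodule.span_mono
    rintro _ ⟨k, rfl⟩
    obtain ⟨i, hi⟩ := hf1 k
    refine ⟨i, ?_⟩
    have hi' : a i - φ' (a i) • e i = f k := hi
    simp only [hi']
  · right
    obtain ⟨r, hr0, hr⟩ := hB
    obtain ⟨j, hj⟩ : ∃ j, r j ≠ 0 := by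
      by_contra hno
      push Not at hno
      exact hr0 (funext hno)
    obtain ⟨ξ, hξ⟩ : ∃ ξ : L →ₗ[F] F, ξ (r j) ≠ 0 := by
      by_contra hno
      push Not at hno
      exact hj (hzero _ hno)
    refine ⟨T ξ r, ?_, ?_⟩
    · intro h0
      have h1 := b.linearIndependent
      rw [Fintype.linearIndependent_iff] at h1
      exact hξ (h1 (fun j => ξ (r j)) h0 j)
    · intro M' hM' hc
      obtain ⟨v, hv⟩ := hr M' (hI1 M' hM') hc
      refine ⟨(fun i => ξ (v.1 i), fun i => ξ (v.2 i)), ?_⟩
      have h5 := map_sum (AddMonoidHom.mk' (T ξ) (hTadd ξ))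
        (fun i : M' => v.1 i • J (e i) + v.2 i • J (a i)) Finset.univ
      simp only [AddMonoidHom.mk'_apply] at h5
      rw [hv, comb_apply, comb_apply, h5]
      exact Finset.sum_congr rfl fun i _ => by rw [hTadd, hTJ, hTJ]

end Pool.Agent.H139P
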