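import Pool.Agent.H139P.Desc

/-!
# Diagonal completion and matroid parity over an arbitrary field
-/

namespace Pool.Agent.H139P

open Module Pool.Agent.H442R3.MPar

universe u v w

section

variable {F : Type v} [Field F]

theorem indep_map {U : Type u} [AddCommGroup U] [Module F U] {ι : Type w} {ι' : Type w}
    {e a : ι → U} (g : ι' ↪ ι) {M' : Finset ι'}
    (h : IndepSet F (fun i => e (g i)) (fun i => a (g i)) M') : IndepSet F e a (M'.map g) := by
  intro α β h0 i hi
  rw [Finset.sum_map] at h0
  obtain ⟨j, hj, rfl⟩ := Finset.mem_map.1 hi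
  exact h (fun i => α (g i)) (fun i => β (g i)) h0 j hj

theorem indep_of_quot {U : Type u} [AddCommGroup U] [Module F U] {U' : Type u} [AddCommGroup U']
    [Module F U'] (π : U →ₗ[F] U') {ι : Type w} {e a : ι → U} {M : Finset ι}
    (h : IndepSet F (fun i => π (e i)) (fun i => π (a i)) M) : IndepSet F e a M := by
  intro α β h0 i hi
  refine h α β ?_ i hi
  have := congrArg π h0
  rw [map_sum, map_zero] at this
  rw [← this]
  exact Finset.sum_congr rfl fun i _ => by rw [map_add, map_smul, map_smul]

theorem exists_ones {U : Type u} [AddCommGroup U] [Module F U] {ι : Type w} {e : ι → U}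
    (he : LinearIndependent F e) : ∃ φ : Dual F U, ∀ i, φ (e i) = 1 := by
  let b := Basis.span he
  obtain ⟨φ, hφ⟩ := LinearMap.exists_extend (b.constr F (fun _ : ι => (1 : F)))
  refine ⟨φ, fun i => ?_⟩
  have h1 : (b i : U) = e i := by rw [Basis.span_apply he i]
  have h2 := LinearMap.congr_fun hφ (b i)
  rw [LinearMap.comp_apply, Basis.constr_basis] at h2
  rw [← h1]
  exact h2

theorem exists_notMem {U : Type u} [AddCommGroup U] [Module F U] {ι : Type w} [Fintype ι]
    [Nonempty ι] {e : ι → U} (he : LinearIndependent F e) {t : U} (ht : t ≠ 0) :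
    ∃ i0 : ι, t ∉ Submodule.span F (Set.range fun i : {i // i ≠ i0} => e i) := by
  classical
  by_contra hno
  push Not at hno
  have h1 : ∀ i0, ∃ c : ι → F, c i0 = 0 ∧ ∑ i, c i • e i = t := by
    intro i0
    obtain ⟨c, hc⟩ := (Submodule.mem_span_range_iff_exists_fun F).1 (hno i0)
    refine ⟨fun i => if h : i ≠ i0 then c ⟨i, h⟩ else 0, by simp, ?_⟩
    rw [← hc]
    rw [← Finset.sum_subset (s₁ := Finset.univ.filter (fun i => i ≠ i0)) (Finset.subset_univ _)]
    · rw [Finset.sum_subtype (Finset.univ.filter (fun i => i ≠ i0)) (p := fun i => i ≠ i0)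
        (by simp)]
      apply Finset.sum_congr rfl
      rintro ⟨i, hi⟩ _
      simp [hi]
    · intro i _ hi
      have : i = i0 := by simpa using hi
      subst this
      simp
  choose c hc0 hc using h1
  obtain ⟨j⟩ := ‹Nonempty ι›
  rw [Fintype.linearIndependent_iff] at he
  have h2 : ∀ i, c j i = 0 := by
    intro i
    have h3 : ∑ k, (c j k - c i k) • e k = 0 := by
      simp only [sub_smul, Finset.sum_sub_distrib, hc, sub_self]
    have h4 := he _ h3 i
    rw [hc0, sub_zero] at h4
    exact h4
  apply ht
  rw [← hc j]
  exact Finset.sum_eq_zero fun i _ => by rw [h2, zero_smul]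

/-- **Diagonal completion.** If the vectors `e i` are linearly independent, then scalars `v i` can
be chosen such that the vectors `a i + v i • e i` span a space of dimension at most twice the
matroid parity number of the lines `⟨e i, a i⟩`. -/
theorem parity_diag : ∀ (n : ℕ) (U : Type u) [AddCommGroup U] [Module F U]
    [FiniteDimensional F U] (ι : Type w) [Fintype ι] [DecidableEq ι] (e a : ι → U),
    Fintype.card ι = n → LinearIndependent F e →
    ∃ (v : ι → F) (M : Finset ι), IndepSet F e a M ∧
      finrank F (Submodule.span F (Set.range fun i => a i + v i • e i)) ≤ 2 * M.card := by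
  intro n
  induction n with
  | zero =>
    intro U _ _ _ ι _ _ e a hcard he
    have : IsEmpty ι := Fintype.card_eq_zero_iff.1 hcard
    refine ⟨0, ∅, fun α β _ i hi => absurd hi (by simp), ?_⟩
    rw [Set.range_eq_empty, Submodule.span_empty, finrank_bot]
    simp
  | succ n ih =>
    intro U _ _ _ ι _ _ e a hcard he
    have hcard' : ∀ i0 : ι, Fintype.card {i // i ≠ i0} = n := by
      intro i0
      have h1 : Fintype.card {i // i ≠ i0} = Fintype.card ι - 1 := by
        rw [Fintype.card_subtype_compl (fun i => i = i0), Fintype.card_subtype_eq]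
      rw [h1, hcard]
      rfl
    by_cases hdeg : ∃ i0, finrank F (ln F (e i0) (a i0)) ≠ 2
    · obtain ⟨i0, hi0⟩ := hdeg
      have hpar : ∃ l : F, a i0 + l • e i0 = 0 := by
        by_contra hno
        push Not at hno
        apply hi0
        apply finrank_of_pair
        intro α β h0
        have hβ : β = 0 := by
          by_contra hβ
          apply hno (β⁻¹ * α)
          have h3 := congrArg (fun z => β⁻¹ • z) h0
          simp only [smul_add, smul_smul, smul_zero, inv_mul_cancel₀ hβ, one_smul] at h3
          rw [add_comm]
          exact h3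
        subst hβ
        rw [zero_smul, add_zero] at h0
        exact ⟨(smul_eq_zero.1 h0).resolve_right (he.ne_zero i0), rfl⟩
      obtain ⟨l, hl⟩ := hpar
      obtain ⟨v, M, hM, hfr⟩ := ih U {i // i ≠ i0} (fun i => e i) (fun i => a i) (hcard' i0)
        (he.comp _ Subtype.val_injective)
      refine ⟨fun i => if h : i ≠ i0 then v ⟨i, h⟩ else l, M.map (Function.Embedding.subtype _),
        indep_map (Function.Embedding.subtype _) hM, ?_⟩
      rw [Finset.card_map]
      refine le_trans (Submodule.finrank_mono ?_) hfr
      rw [Submodule.span_le]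
      rintro _ ⟨i, rfl⟩
      by_cases h : i ≠ i0
      · refine Submodule.subset_span ⟨⟨i, h⟩, ?_⟩
        simp only [h, ne_eq, not_false_eq_true, dif_pos]
      · have : i = i0 := not_not.1 h
        subst this
        simp only [ne_eq, not_true_eq_false, dif_neg, not_false_eq_true]
        rw [hl]
        exact Submodule.zero_mem _
    push Not at hdeg
    obtain ⟨φ, hφ⟩ := exists_ones he
    obtain ⟨M, hM, hmax, hor⟩ := core_field e a hdeg φ hφ
    rcases hor with h | ⟨t, ht0, ht⟩
    · refine ⟨fun i => - φ (a i), M, hM, ?_⟩
      have hfun : (fun i => a i + (- φ (a i)) • e i) = fun i => a i - φ (a i) • e i := by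
        funext i
        rw [neg_smul, sub_eq_add_neg]
      rw [hfun]
      exact h
    have : Nonempty ι := Fintype.card_pos_iff.1 (by omega)
    obtain ⟨i0, hi0⟩ := exists_notMem he ht0
    let P : Submodule F U := Submodule.span F {t}
    let π : U →ₗ[F] (U ⧸ P) := P.mkQ
    have hker : LinearMap.ker π = P := Submodule.ker_mkQ P
    have hπe : LinearIndependent F (fun i : {i // i ≠ i0} => π (e i)) := by
      refine LinearIndependent.map (he.comp _ Subtype.val_injective) ?_
      rw [hker]
      exact (Submodule.disjoint_span_singleton' ht0).2 hi0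
    obtain ⟨v, M', hM', hfr⟩ := ih (U ⧸ P) {i // i ≠ i0} (fun i => π (e i)) (fun i => π (a i))
      (hcard' i0) hπe
    have hM1 : IndepSet F (fun i => π (e i)) (fun i => π (a i))
        (M'.map (Function.Embedding.subtype _)) :=
      indep_map (e := fun i => π (e i)) (a := fun i => π (a i)) (Function.Embedding.subtype _) hM'
    have hM2 : IndepSet F e a (M'.map (Function.Embedding.subtype _)) := indep_of_quot π hM1
    have hlt : M'.card + 1 ≤ M.card := by
      have h1 := hmax _ hM2
      rw [Finset.card_map] at h1
      by_contra hno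
      have h2 : M'.card = M.card := by omega
      obtain ⟨c, hc⟩ := ht _ hM2 (by rw [Finset.card_map, h2])
      have h3 : π t = 0 := by
        rw [← LinearMap.mem_ker, hker]
        exact Submodule.mem_span_singleton_self t
      have h4 : comb F (fun i => π (e i)) (fun i => π (a i))
          (M'.map (Function.Embedding.subtype _)) c = 0 := by
        rw [← h3, hc, comb_apply, comb_apply, map_sum]
        exact Finset.sum_congr rfl fun i _ => by rw [map_add, map_smul, map_smul]
      have h5 := comb_inj hM1 h4
      apply ht0
      rw [hc, h5, map_zero]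
    refine ⟨fun i => if h : i ≠ i0 then v ⟨i, h⟩ else 0, M, hM, ?_⟩
    let w : ι → U := fun i => a i + (if h : i ≠ i0 then v ⟨i, h⟩ else 0) • e i
    let S : Submodule F U := Submodule.span F (Set.range fun i : {i // i ≠ i0} => w i)
    have hS : Submodule.span F (Set.range w) ≤ S ⊔ Submodule.span F {w i0} := by
      rw [Submodule.span_le]
      rintro _ ⟨i, rfl⟩
      by_cases h : i ≠ i0
      · exact Submodule.mem_sup_left (Submodule.subset_span ⟨⟨i, h⟩, rfl⟩)
      · have : i = i0 := not_not.1 h
        subst this
        exact Submodule.mem_sup_right (Submodule.mem_span_singleton_self _)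
    have hSπ : S.map π ≤ Submodule.span F (Set.range fun i : {i // i ≠ i0} =>
        π (a i) + v i • π (e i)) := by
      rw [Submodule.map_span, Submodule.span_le]
      rintro _ ⟨_, ⟨i, rfl⟩, rfl⟩
      refine Submodule.subset_span ⟨i, ?_⟩
      have h1 : (i : ι) ≠ i0 := i.2
      simp only [w, h1, ne_eq, not_false_eq_true, dif_pos, map_add, map_smul, Subtype.coe_eta]
    have d1 := Submodule.finrank_mono hS
    have d2 := Submodule.finrank_sup_add_finrank_inf_eq S (Submodule.span F {w i0})
    have d3 : finrank F (Submodule.span F {w i0}) ≤ 1 := by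
      have := finrank_span_le_card (R := F) ({w i0} : Set U)
      simpa using this
    have d4 := finrank_map_add S π
    have d5 := Submodule.finrank_mono hSπ
    have d6 : finrank F ↥(S ⊓ LinearMap.ker π) ≤ 1 := by
      rw [hker]
      refine le_trans (Submodule.finrank_mono inf_le_right) ?_
      have := finrank_span_le_card (R := F) ({t} : Set U)
      simpa using this
    change finrank F (Submodule.span F (Set.range w)) ≤ _
    omega

end

end Pool.Agent.H139P
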