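import Pool.Agent.H139P.Up2

/-!
# Two-step stuck points over infinite fields
-/

namespace Pool.Agent.H139P

open Module Pool.Agent.H442R3.MPar

section potential

variable {F : Type*} [Field F] [Infinite F] {V : Type*} [AddCommGroup V] [Module F V]
  [FiniteDimensional F V]
variable {ι : Type*} [Fintype ι] [DecidableEq ι]

omit [DecidableEq ι] in
theorem good_z' (a b : ι → V) (A : Dual F V →ₗ[F] V) (k : ι) (E : Finset F) :
    ∃ z ∉ E, ∀ j k', nl a b (mv A z (a k) (b k)) j k' ≤ nl a b A j k' := by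
  classical
  let S1 : (Dual F V × F × F) →ₗ[F] (V × F × F) :=
    LinearMap.prod ((bv (F := F) (a k) (b k)).comp (LinearMap.fst F _ _)) 0
  have hT : ∀ z j k', TM a b (mv A z (a k) (b k)) j k' = TM a b A j k' + z • S1 := by
    intro z j k'
    apply LinearMap.ext
    rintro ⟨φ, s, t⟩
    have e1 : S1 (φ, s, t) = (bv (a k) (b k) φ, 0) := rfl
    rw [LinearMap.add_apply, LinearMap.smul_apply, TM_apply, TM_apply, e1]
    refine Prod.ext ?_ ?_
    · simp only [Prod.fst_add, Prod.smul_fst, mv, LinearMap.add_apply, LinearMap.smul_apply]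
      abel
    · simp only [Prod.snd_add, Prod.smul_snd, smul_zero, add_zero]
  have hB : ∀ p : Option ι × Option ι, ∃ B : Finset F,
      ∀ z ∉ B, nl a b (mv A z (a k) (b k)) p.1 p.2 ≤ nl a b A p.1 p.2 := by
    intro p
    obtain ⟨B, hB1, hB2⟩ := pencil (TM a b A p.1 p.2) S1
    refine ⟨B, fun z hz => ?_⟩
    rw [nl, nl, hT]
    exact hB2 z hz
  choose B hB2 using hB
  obtain ⟨z, hz⟩ := Infinite.exists_notMem_finset (E ∪ Finset.univ.biUnion B)
  rw [Finset.mem_union, not_or] at hz
  refine ⟨z, hz.1, fun j k' => hB2 (j, k') z fun h => hz.2 ?_⟩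
  exact Finset.mem_biUnion.2 ⟨(j, k'), Finset.mem_univ _, h⟩

theorem one_step' (a b : ι → V) (x : ι → F)
    (k : ι) (hmin : ∀ v, Psi a b x ≤ Psi a b (Function.update x k v))
    (E : Finset F) :
    ∃ z ∉ E, Same a b (AL a b x) (mv (AL a b x) z (a k) (b k)) ∧
      Psi a b (Function.update x k (x k + z)) = Psi a b x := by
  obtain ⟨z, hz, hle⟩ := good_z' a b (AL a b x) k E
  have e1 : AL a b (Function.update x k (x k + z)) = mv (AL a b x) z (a k) (b k) := by
    rw [AL_update, add_sub_cancel_left]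
  have h1 : Psi a b (Function.update x k (x k + z)) ≤ Psi a b x := by
    rw [Psi, Psi, e1]
    exact Finset.sum_le_sum fun p _ => hle p.1 p.2
  have h2 := le_antisymm h1 (hmin (x k + z))
  refine ⟨z, hz, ?_, h2⟩
  have h3 := h2
  rw [Psi, Psi, e1] at h3
  rw [Finset.sum_eq_sum_iff_of_le (fun p _ => hle p.1 p.2)] at h3
  exact same_of_nl (alt_AL a b x) (alt_mv (alt_AL a b x) _ _ _)
    fun j k' => h3 (j, k') (Finset.mem_univ _)

/-- A global minimum of the potential is two-step stuck. -/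
theorem exists_stuck (a b : ι → V) : ∃ x : ι → F, S2 a b (AL a b x) := by
  classical
  have hex : ∃ n, ∃ x : ι → F, Psi a b x = n := ⟨_, 0, rfl⟩
  obtain ⟨x, hx⟩ := Nat.find_spec hex
  have hmin : ∀ y : ι → F, Psi a b x ≤ Psi a b y := by
    intro y
    rw [hx]
    exact Nat.find_min' hex ⟨y, rfl⟩
  refine ⟨x, ?_⟩
  intro k E hE
  obtain ⟨z, hz, hs, hps⟩ := one_step' a b x k (fun v => hmin _) E
  refine ⟨z, hz, hs, ?_⟩
  have e1 : AL a b (Function.update x k (x k + z)) = mv (AL a b x) z (a k) (b k) := by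
    rw [AL_update, add_sub_cancel_left]
  rw [← e1]
  intro k' E' hE'
  obtain ⟨z', hz', hs', _⟩ := one_step' a b (Function.update x k (x k + z)) k'
    (fun v' => by rw [hps]; exact hmin _) E'
  exact ⟨z', hz', hs'⟩

end potential

end Pool.Agent.H139P
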