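import Pool.Agent.H139P.Char

/-!
# Characteristic-free matroid parity: lower and upper bound
(adapted from `H442R3.MPar.Low` and `H442R3.MPar.Up`, with the extra conclusion that, for a
matching of full size, the vectors orthogonal to all classes are in its span)
-/

namespace Pool.Agent.H139P

open Module Pool.Agent.H442R3.MPar

section

variable {F : Type*} [Field F] {ι : Type*} [DecidableEq ι]

theorem exists_matching' : ∀ (r : ℕ) (V : Type*) [AddCommGroup V] [Module F V]
    [FiniteDimensional F V] (a b : ι → V) (S : Finset ι) (x : ι → F),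
    2 * r ≤ finrank F (LinearMap.range (∑ i ∈ S, x i • bv (F := F) (a i) (b i))) →
    ∃ M ⊆ S, M.card = r ∧ IndepSet F a b M := by
  intro r
  induction r with
  | zero =>
    intro V _ _ _ a b S x _
    exact ⟨∅, Finset.empty_subset _, rfl, fun α β _ i hi => absurd hi (by simp)⟩
  | succ r ih =>
    intro V _ _ _ a b S
    induction S using Finset.strongInduction with
    | H S ihS =>
    intro x hx
    by_cases hmin : ∃ i ∈ S, ∃ x' : ι → F, 2 * (r + 1) ≤
        finrank F (LinearMap.range (∑ i ∈ S.erase i, x' i • bv (F := F) (a i) (b i)))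
    · obtain ⟨i, hi, x', hx'⟩ := hmin
      obtain ⟨M, hM, hM2⟩ := ihS (S.erase i) (Finset.erase_ssubset hi) x' hx'
      exact ⟨M, hM.trans (Finset.erase_subset _ _), hM2⟩
    push Not at hmin
    have hS : S.Nonempty := by
      by_contra hne
      rw [Finset.not_nonempty_iff_eq_empty] at hne
      subst hne
      rw [Finset.sum_empty, LinearMap.range_zero, finrank_bot] at hx
      omega
    obtain ⟨i, hi⟩ := hS
    have hlt := hmin i hi x
    set A' := ∑ i ∈ S.erase i, x i • bv (F := F) (a i) (b i) with hA'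
    have hA : ∑ i ∈ S, x i • bv (F := F) (a i) (b i) = x i • bv (a i) (b i) + A' :=
      (Finset.add_sum_erase S (fun i => x i • bv (F := F) (a i) (b i)) hi).symm
    rw [hA] at hx
    have hAlt : Alt A' := Alt.sum _ fun j => (alt_bv _ _).smul _
    have heven := even_rank' hAlt
    set L := Submodule.span F {a i, b i} with hL
    have hle : LinearMap.range (x i • bv (F := F) (a i) (b i) + A') ≤ LinearMap.range A' ⊔ L := by
      rintro _ ⟨φ, rfl⟩
      rw [LinearMap.add_apply, add_comm]
      exact Submodule.add_mem_sup ⟨φ, rfl⟩ (Submodule.smul_mem _ _ (bv_mem_span _ _ _))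
    have h3 := Submodule.finrank_mono hle
    have h4 := Submodule.finrank_sup_add_finrank_inf_eq (LinearMap.range A') L
    have h5 : finrank F L ≤ 2 := finrank_pair_le _ _
    have h6 : finrank F L = 2 := by
      obtain ⟨k, hk⟩ := heven
      omega
    have h7 : finrank F ↥(LinearMap.range A' ⊓ L) = 0 := by
      obtain ⟨k, hk⟩ := heven
      omega
    have h8 : finrank F (LinearMap.range A') = 2 * r := by
      obtain ⟨k, hk⟩ := heven
      omega
    rw [Submodule.finrank_eq_zero] at h7
    -- the quotient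
    let π := L.mkQ
    let A'' := ∑ j ∈ S.erase i, x j • bv (F := F) (π (a j)) (π (b j))
    have hA'' : ∀ φ : Dual F (V ⧸ L), A'' φ = π (A' (φ.comp π)) := by
      intro φ
      simp only [A'', hA', LinearMap.sum_apply, LinearMap.smul_apply, bv_apply,
        LinearMap.comp_apply, map_sum, map_smul, map_sub]
    have hsup : LinearMap.ker A' ⊔ L.dualAnnihilator = ⊤ := by
      have e1 : LinearMap.ker A' = (LinearMap.range A').dualAnnihilator := by
        rw [hAlt.range_eq, Subspace.dualCoannihilator_dualAnnihilator_eq]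
      rw [e1, ← Subspace.dualAnnihilator_inf_eq, h7, Submodule.dualAnnihilator_bot]
    have hrange : (LinearMap.range A').map π ≤ LinearMap.range A'' := by
      rintro _ ⟨_, ⟨ψ, rfl⟩, rfl⟩
      have : ψ ∈ LinearMap.ker A' ⊔ L.dualAnnihilator := by rw [hsup]; trivial
      obtain ⟨η, hη, φ, hφ, rfl⟩ := Submodule.mem_sup.1 this
      rw [Submodule.mem_dualAnnihilator] at hφ
      have hφ' : L ≤ LinearMap.ker φ := fun w hw => LinearMap.mem_ker.2 (hφ w hw)
      refine ⟨L.liftQ φ hφ', ?_⟩
      rw [hA'', map_add, LinearMap.mem_ker.1 hη, zero_add]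
      have e9 : (L.liftQ φ hφ').comp π = φ := Submodule.liftQ_mkQ _ _ _
      rw [e9]
    have hfr : 2 * r ≤ finrank F (LinearMap.range A'') := by
      have e1 := Submodule.finrank_mono hrange
      have e2 : finrank F ↥((LinearMap.range A').map π) = finrank F (LinearMap.range A') := by
        have e3 : Function.Injective (π.domRestrict (LinearMap.range A')) := by
          rw [← LinearMap.ker_eq_bot, LinearMap.ker_eq_bot']
          rintro ⟨p, hp⟩ h0
          have h1 : p ∈ L := by
            rw [LinearMap.domRestrict_apply] at h0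
            exact (Submodule.Quotient.mk_eq_zero L).1 h0
          have h2 : p ∈ LinearMap.range A' ⊓ L := ⟨hp, h1⟩
          rw [h7] at h2
          exact Subtype.ext ((Submodule.mem_bot F).1 h2)
        rw [← LinearMap.range_domRestrict, LinearMap.finrank_range_of_inj e3]
      omega
    obtain ⟨M', hM'S, hM'c, hM'⟩ := ih (V ⧸ L) (fun j => π (a j)) (fun j => π (b j)) (S.erase i) x hfr
    have hiM : i ∉ M' := fun h => (Finset.notMem_erase i S) (hM'S h)
    refine ⟨insert i M', ?_, by rw [Finset.card_insert_of_notMem hiM, hM'c], ?_⟩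
    · intro j hj
      rcases Finset.mem_insert.1 hj with rfl | hj
      · exact hi
      · exact Finset.mem_of_mem_erase (hM'S hj)
    · intro α β h0
      rw [Finset.sum_insert hiM] at h0
      have e1 : π (α i • a i + β i • b i) = 0 := by
        rw [Submodule.mkQ_apply, Submodule.Quotient.mk_eq_zero]
        exact Submodule.add_mem _ (Submodule.smul_mem _ _ (Submodule.subset_span (by simp)))
          (Submodule.smul_mem _ _ (Submodule.subset_span (by simp)))
      have e2 := congrArg π h0
      rw [map_add, e1, zero_add, map_zero, map_sum] at e2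
      simp only [map_add, map_smul] at e2
      have e3 := hM' α β e2
      have e4 : ∑ j ∈ M', (α j • a j + β j • b j) = 0 := by
        apply Finset.sum_eq_zero
        intro j hj
        rw [(e3 j hj).1, (e3 j hj).2]
        simp
      rw [e4, add_zero] at h0
      intro j hj
      rcases Finset.mem_insert.1 hj with rfl | hj
      · exact pair_of_finrank h6 _ _ h0
      · exact e3 j hj

end

section

variable {F : Type*} [Field F] {V : Type*} [AddCommGroup V] [Module F V] {ι : Type*}
variable [FiniteDimensional F V]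

theorem odd_class' {A : Dual F V →ₗ[F] V} (hA : Alt A) {a b : ι → V}
    {M : Finset ι} (hM : IndepSet F a b M) {η : Dual F V} (hη : A η = 0)
    {v0 : (M → F) × (M → F)} (h0 : η (comb F a b M v0) ≠ 0)
    (hC : ∀ v, η (comb F a b M v) = 0 → comb F a b M v ∈ LinearMap.range A) :
    ∃ φ, A φ ≠ 0 ∧ (∃ v, A φ = comb F a b M v) ∧
      ∀ v, comb F a b M v ∈ LinearMap.range A → φ (comb F a b M v) = 0 := by
  classical
  let f : Dual F ((M → F) × (M → F)) := η.comp (comb F a b M)
  have hf : f ≠ 0 := by
    intro h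
    exact h0 (by simpa [f] using congrArg (fun g : Dual F ((M → F) × (M → F)) => g v0) h)
  let X := LinearMap.ker f
  have hX : finrank F X + 1 = 2 * M.card := by
    have h1 := Module.Dual.finrank_ker_add_one_of_ne_zero hf
    rw [h1, Module.finrank_prod, Module.finrank_fintype_fun_eq_card, Fintype.card_coe]
    omega
  have hodd : Odd (finrank F X) := by
    rw [Nat.odd_iff]
    omega
  obtain ⟨s, hs⟩ := A.rangeRestrict.exists_rightInverse_of_surjective
    (LinearMap.range_rangeRestrict A)
  have hs' : ∀ p : LinearMap.range A, A (s p) = p := by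
    intro p
    have := congrArg Subtype.val (LinearMap.congr_fun hs p)
    simpa using this
  let g : X →ₗ[F] LinearMap.range A := LinearMap.codRestrict (LinearMap.range A)
    ((comb F a b M).domRestrict X) (fun v => hC v (LinearMap.mem_ker.1 v.2))
  let B : X →ₗ[F] X →ₗ[F] F :=
    (LinearMap.lcomp F F ((comb F a b M).domRestrict X)).comp (s.comp g)
  have hB : ∀ v w : X, B v w = s (g v) (comb F a b M w) := fun v w => rfl
  have hg : ∀ v : X, ((g v : LinearMap.range A) : V) = comb F a b M v := fun v => rfl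
  have hBa : ∀ v : X, B v v = 0 := by
    intro v
    rw [hB, ← hg, ← hs' (g v)]
    exact hA _
  obtain ⟨r, hr0, hr⟩ := exists_radical' (X := X) B hBa hodd
  refine ⟨s (g r), ?_, ⟨r, ?_⟩, ?_⟩
  · rw [hs', hg]
    intro h
    exact hr0 (Subtype.ext (comb_inj hM h))
  · rw [hs', hg]
  · intro v hv
    have hvX : v ∈ X := LinearMap.mem_ker.2 (hA.ker_kills hη hv)
    have := hr ⟨v, hvX⟩
    rwa [hB] at this

/-- **Upper bound.** -/
theorem upper' {A : Dual F V →ₗ[F] V} (hA : Alt A) {a b : ι → V}
    {C : Type*} [Fintype C] [DecidableEq C] (cl : ι → C) (W : C → Submodule F V)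
    (hW : ∀ i, a i ∈ W (cl i) ∧ b i ∈ W (cl i))
    (hC : ∀ c η, A η = 0 → (∃ p ∈ W c, η p ≠ 0) → ∀ p ∈ W c, η p = 0 → p ∈ LinearMap.range A)
    (hO : ∀ c c', c ≠ c' → ∀ φ, A φ ∈ W c → ∀ p ∈ W c', p ∈ LinearMap.range A → φ p = 0)
    (M : Finset ι) (hM : IndepSet F a b M) : 2 * M.card ≤ finrank F (LinearMap.range A) ∧
    (2 * M.card = finrank F (LinearMap.range A) → ∀ ψ : Dual F V,
      (∀ c, ∀ p ∈ W c, p ∈ LinearMap.range A → ψ p = 0) → ∃ v, A ψ = comb F a b M v) := by
  classical
  let Mc : C → Finset ι := fun c => M.filter (fun i => cl i = c)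
  have hMc : ∀ c, IndepSet F a b (Mc c) := fun c => hM.mono (Finset.filter_subset _ _)
  have hMW : ∀ c, ∀ i ∈ Mc c, a i ∈ W c ∧ b i ∈ W c := by
    intro c i hi
    have := (Finset.mem_filter.1 hi).2
    subst this
    exact hW i
  -- the odd classes
  let O : Finset C := Finset.univ.filter
    (fun c => ∃ v, comb F a b (Mc c) v ∉ LinearMap.range A)
  have hO1 : ∀ c : O, ∃ η : Dual F V, A η = 0 ∧ ∃ v, η (comb F a b (Mc c) v) ≠ 0 := by
    rintro ⟨c, hc⟩
    obtain ⟨v, hv⟩ := (Finset.mem_filter.1 hc).2
    rw [hA.mem_range_iff] at hv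
    push Not at hv
    obtain ⟨η, h1, h3⟩ := hv
    exact ⟨η, h1, v, h3⟩
  choose η hη v0 hv0 using hO1
  have hO2 : ∀ c : O, ∃ φ v, A φ ≠ 0 ∧ A φ = comb F a b (Mc c) v ∧
      ∀ v, comb F a b (Mc c) v ∈ LinearMap.range A → φ (comb F a b (Mc c) v) = 0 := by
    intro c
    obtain ⟨φ, h1, ⟨v, h3⟩, h4⟩ := odd_class' hA (hMc c) (hη c) (hv0 c)
      (fun v hv => hC c (η c) (hη c)
      ⟨_, comb_mem (hMW c) _, hv0 c⟩ _ (comb_mem (hMW c) _) hv)
    exact ⟨φ, v, h1, h3, h4⟩
  choose φ w hφ0 hφw hφk using hO2
  -- the killing space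
  have hind : ∀ t : O → F, ∑ c, t c • A (φ c) = 0 → t = 0 := by
    intro t h1
    simp only [hφw] at h1
    -- coefficients
    let α : ι → F := fun i => if h : cl i ∈ O then
      (if h' : i ∈ Mc (cl i) then t ⟨cl i, h⟩ * (w ⟨cl i, h⟩).1 ⟨i, h'⟩ else 0) else 0
    let β : ι → F := fun i => if h : cl i ∈ O then
      (if h' : i ∈ Mc (cl i) then t ⟨cl i, h⟩ * (w ⟨cl i, h⟩).2 ⟨i, h'⟩ else 0) else 0
    have key : ∀ c : O, ∀ i (hi : i ∈ Mc c), α i = t c * (w c).1 ⟨i, hi⟩ ∧
        β i = t c * (w c).2 ⟨i, hi⟩ := by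
      rintro ⟨c, hc⟩ i hi
      have e := (Finset.mem_filter.1 hi).2
      subst e
      refine ⟨?_, ?_⟩
      · simp only [α, hc, hi, dif_pos]
      · simp only [β, hc, hi, dif_pos]
    have h3 : ∑ i ∈ M, (α i • a i + β i • b i) = 0 := by
      rw [← h1]
      rw [← Finset.sum_fiberwise_of_maps_to (s := M) (t := Finset.univ) (g := cl)
        (fun _ _ => Finset.mem_univ _)]
      rw [← Finset.sum_subset (Finset.subset_univ O)]
      · rw [← Finset.sum_coe_sort O]
        apply Finset.sum_congr rfl
        intro c _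
        rw [comb_apply, Finset.smul_sum]
        change ∑ i ∈ Mc c, _ = _
        rw [← Finset.sum_coe_sort (Mc c)]
        apply Finset.sum_congr rfl
        intro i _
        obtain ⟨e1, e2⟩ := key c i i.2
        rw [e1, e2, smul_add, mul_smul, mul_smul]
      · intro c _ hc
        apply Finset.sum_eq_zero
        intro i hi
        have e := (Finset.mem_filter.1 hi).2
        have e3 : cl i ∉ O := by rw [e]; exact hc
        simp only [α, β, e3, dif_neg, not_false_eq_true, zero_smul, add_zero]
    have h4 := hM α β h3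
    funext c
    by_contra htc
    apply hφ0 c
    rw [hφw]
    rw [comb_apply]
    apply Finset.sum_eq_zero
    intro i _
    obtain ⟨e1, e2⟩ := key c i i.2
    obtain ⟨e3, e4⟩ := h4 i (Finset.filter_subset _ _ i.2)
    rw [e1] at e3
    rw [e2] at e4
    have e5 := (mul_eq_zero.1 e3).resolve_left htc
    have e6 := (mul_eq_zero.1 e4).resolve_left htc
    rw [e5, e6, zero_smul, zero_smul, add_zero]
  have hlin : LinearIndependent F φ := by
    rw [Fintype.linearIndependent_iff]
    intro t h0 c
    have h1 := congrArg A h0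
    rw [map_sum, map_zero] at h1
    simp only [map_smul] at h1
    rw [hind t h1]
    rfl
  let S : Submodule F (Dual F V) := Submodule.span F (Set.range φ)
  have hS : finrank F S = O.card := by
    rw [finrank_span_eq_card hlin, Fintype.card_coe]
  have hdis : LinearMap.ker A ⊓ S = ⊥ := by
    rw [Submodule.eq_bot_iff]
    rintro x ⟨hx1, hx2⟩
    obtain ⟨t, rfl⟩ := (Submodule.mem_span_range_iff_exists_fun F).1 hx2
    have h1 : A (∑ c, t c • φ c) = 0 := hx1
    rw [map_sum] at h1
    simp only [map_smul] at h1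
    rw [hind t h1]
    simp
  -- the killed space
  let Z : ((M → F) × (M → F)) →ₗ[F] (O → F) := LinearMap.pi fun c =>
    (η c).comp ((comb F a b (Mc c)).comp (LinearMap.prodMap
      (LinearMap.funLeft F F (fun i : Mc c => (⟨i, Finset.filter_subset _ _ i.2⟩ : M)))
      (LinearMap.funLeft F F (fun i : Mc c => (⟨i, Finset.filter_subset _ _ i.2⟩ : M)))))
  let res : (c : C) → ((M → F) × (M → F)) → ((Mc c → F) × (Mc c → F)) := fun c v =>
    (fun i => v.1 ⟨i, Finset.filter_subset _ _ i.2⟩, fun i => v.2 ⟨i, Finset.filter_subset _ _ i.2⟩)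
  have hZ : ∀ v c, Z v c = η c (comb F a b (Mc c) (res c v)) := fun v c => rfl
  have hsum : ∀ v, comb F a b M v = ∑ c, comb F a b (Mc c) (res c v) := by
    intro v
    rw [comb_apply]
    let G : ι → V := fun i => if h : i ∈ M then v.1 ⟨i, h⟩ • a i + v.2 ⟨i, h⟩ • b i else 0
    have e1 : ∑ i : M, (v.1 i • a i + v.2 i • b i) = ∑ i ∈ M, G i := by
      rw [← Finset.sum_coe_sort M]
      apply Finset.sum_congr rfl
      intro i _
      simp only [G, i.2, dif_pos, Subtype.coe_eta]
    rw [e1, ← Finset.sum_fiberwise_of_maps_to (s := M) (t := Finset.univ) (g := cl)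
        (fun _ _ => Finset.mem_univ _)]
    apply Finset.sum_congr rfl
    intro c _
    rw [comb_apply]
    change ∑ i ∈ Mc c, _ = _
    rw [← Finset.sum_coe_sort (Mc c)]
    apply Finset.sum_congr rfl
    intro i _
    have e2 : (i : ι) ∈ M := Finset.filter_subset _ _ i.2
    simp only [G, e2, dif_pos, res]
  let K : Submodule F (Dual F V) := LinearMap.ker A ⊔ S
  have hker : (LinearMap.ker Z).map (comb F a b M) ≤ K.dualCoannihilator := by
    rintro _ ⟨v, hv, rfl⟩
    have hv' : ∀ c, comb F a b (Mc c) (res c v) ∈ LinearMap.range A := by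
      intro c
      by_cases hc : c ∈ O
      · have e1 : Z v ⟨c, hc⟩ = 0 := by rw [LinearMap.mem_ker.1 hv]; rfl
        rw [hZ] at e1
        exact hC c (η ⟨c, hc⟩) (hη _) ⟨_, comb_mem (hMW c) _, hv0 ⟨c, hc⟩⟩ _
          (comb_mem (hMW c) _) e1
      · by_contra hno
        exact hc (Finset.mem_filter.2 ⟨Finset.mem_univ _, _, hno⟩)
    rw [Submodule.mem_dualCoannihilator]
    intro x hx
    obtain ⟨η', hη', y, hy, rfl⟩ := Submodule.mem_sup.1 hx
    obtain ⟨t, rfl⟩ := (Submodule.mem_span_range_iff_exists_fun F).1 hy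
    rw [LinearMap.add_apply, LinearMap.sum_apply, hsum, map_sum]
    have e1 : ∑ c, η' (comb F a b (Mc c) (res c v)) = 0 :=
      Finset.sum_eq_zero fun c _ => hA.ker_kills hη' (hv' c)
    rw [e1, zero_add]
    apply Finset.sum_eq_zero
    intro c _
    rw [LinearMap.smul_apply, map_sum]
    rw [Finset.sum_eq_zero, smul_zero]
    intro c' _
    by_cases hcc : (c : C) = c'
    · subst hcc
      exact hφk c _ (hv' c)
    · exact hO c c' hcc (φ c) (by rw [hφw]; exact comb_mem (hMW c) _) _
        (comb_mem (hMW c') _) (hv' c')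
  -- dimension count
  have d1 : finrank F (LinearMap.ker Z) + O.card ≥ 2 * M.card := by
    have e1 := LinearMap.finrank_range_add_finrank_ker Z
    have e2 : finrank F (LinearMap.range Z) ≤ O.card := by
      have := Submodule.finrank_le (LinearMap.range Z)
      rwa [Module.finrank_fintype_fun_eq_card, Fintype.card_coe] at this
    rw [Module.finrank_prod, Module.finrank_fintype_fun_eq_card, Fintype.card_coe] at e1
    omega
  have d2 : finrank F ↥((LinearMap.ker Z).map (comb F a b M)) = finrank F (LinearMap.ker Z) := by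
    have e3 : Function.Injective ((comb F a b M).domRestrict (LinearMap.ker Z)) := by
      rw [← LinearMap.ker_eq_bot, LinearMap.ker_eq_bot']
      rintro ⟨p, hp⟩ h0
      exact Subtype.ext (comb_inj hM h0)
    rw [← LinearMap.range_domRestrict, LinearMap.finrank_range_of_inj e3]
  have d3 := Submodule.finrank_mono hker
  have d4 := Subspace.finrank_add_finrank_dualCoannihilator_eq K
  have d5 : finrank F K = finrank F (LinearMap.ker A) + O.card := by
    have e1 := Submodule.finrank_sup_add_finrank_inf_eq (LinearMap.ker A) S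
    rw [hdis, finrank_bot, hS] at e1
    exact e1
  have d6 := LinearMap.finrank_range_add_finrank_ker A
  have d7 : finrank F (Dual F V) = finrank F V := Subspace.dual_finrank_eq
  refine ⟨by omega, fun heq ψ hψ => ?_⟩
  have hEq : (LinearMap.ker Z).map (comb F a b M) = K.dualCoannihilator :=
    Submodule.eq_of_le_of_finrank_eq hker (by omega)
  have hψK : ψ ∈ K := by
    rw [← Subspace.dualCoannihilator_dualAnnihilator_eq (W := K), ← hEq,
      Submodule.mem_dualAnnihilator]
    rintro _ ⟨v, hv, rfl⟩
    have hv' : ∀ c, comb F a b (Mc c) (res c v) ∈ LinearMap.range A := by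
      intro c
      by_cases hc : c ∈ O
      · have e1 : Z v ⟨c, hc⟩ = 0 := by rw [LinearMap.mem_ker.1 hv]; rfl
        rw [hZ] at e1
        exact hC c (η ⟨c, hc⟩) (hη _) ⟨_, comb_mem (hMW c) _, hv0 ⟨c, hc⟩⟩ _
          (comb_mem (hMW c) _) e1
      · by_contra hno
        exact hc (Finset.mem_filter.2 ⟨Finset.mem_univ _, _, hno⟩)
    rw [hsum, map_sum]
    exact Finset.sum_eq_zero fun c _ => hψ c _ (comb_mem (hMW c) _) (hv' c)
  obtain ⟨η', hη', y, hy, rfl⟩ := Submodule.mem_sup.1 hψK
  obtain ⟨t, rfl⟩ := (Submodule.mem_span_range_iff_exists_fun F).1 hy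
  rw [map_add, LinearMap.mem_ker.1 hη', zero_add, map_sum]
  have hmem : ∑ c, A (t c • φ c) ∈ LinearMap.range (comb F a b M) := by
    refine Submodule.sum_mem _ fun c _ => ?_
    rw [map_smul, hφw]
    refine Submodule.smul_mem _ _ ?_
    rw [comb_apply]
    refine Submodule.sum_mem _ fun i _ => ?_
    have hiM : (i : ι) ∈ M := Finset.filter_subset _ _ i.2
    refine Submodule.add_mem _ (Submodule.smul_mem _ _ ?_) (Submodule.smul_mem _ _ ?_)
    · refine ⟨(Pi.single ⟨i, hiM⟩ 1, 0), ?_⟩
      rw [comb_apply, Finset.sum_eq_single ⟨(i : ι), hiM⟩]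
      · simp
      · intro j _ hj
        simp [Pi.single_eq_of_ne hj]
      · intro h; exact absurd (Finset.mem_univ _) h
    · refine ⟨(0, Pi.single ⟨i, hiM⟩ 1), ?_⟩
      rw [comb_apply, Finset.sum_eq_single ⟨(i : ι), hiM⟩]
      · simp
      · intro j _ hj
        simp [Pi.single_eq_of_ne hj]
      · intro h; exact absurd (Finset.mem_univ _) h
  obtain ⟨v, hv⟩ := hmem
  exact ⟨v, hv.symm⟩

end

end Pool.Agent.H139P
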